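import Mathlib
import Pool.Agent.Run7.h100.UN.Iface
import Pool.Agent.Helper259.AbsHt

/-!
# Project UN (helper100), piece LOW: the product formula

`t_LOW : S_LOW`.
-/

set_option autoImplicit false

namespace Run7.h958.UN

open NumberField Height Module
open Pool.Agent.Helper259.AbsHt (absLogHeight val_eq finrank_pos')
open Run7.h100.UN (Qb S_LOW)

/-- the finite places at which the maximum of the absolute values is not one are finite in number -/
theorem supp {L : Type*} [Field L] [NumberField L] (U : Fin 2 → L) (hU : U ≠ 0) :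
    (fun v : FinitePlace L => ⨆ i, v (U i)).HasFiniteMulSupport := by
  have hfin : (⋃ i ∈ {i : Fin 2 | U i ≠ 0},
      Function.mulSupport (fun v : FinitePlace L => v (U i))).Finite := by
    apply Set.Finite.biUnion (Set.toFinite _)
    intro i hi
    exact FinitePlace.hasFiniteMulSupport hi
  refine hfin.subset ?_
  intro v hv
  by_contra hne
  apply hv
  have hne' : ∀ i, U i ≠ 0 → v (U i) = 1 := by
    intro i hi
    by_contra h
    exact hne (Set.mem_biUnion (show i ∈ {i : Fin 2 | U i ≠ 0} from hi) h)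
  obtain ⟨i₀, hi₀⟩ := Function.ne_iff.mp hU
  apply le_antisymm
  · apply ciSup_le
    intro i
    by_cases h : U i = 0
    · rw [h, map_zero]
      exact zero_le_one
    · exact (hne' i h).le
  · exact (hne' i₀ hi₀).ge.trans (le_ciSup (f := fun i => v (U i)) (Set.finite_range _).bddAbove i₀)

/-- **LOW** -/
theorem t_LOW : S_LOW := by
  intro L _ p U V hp hD hv
  have hn : (0 : ℝ) < finrank ℚ L := finrank_pos' L
  have hU : U ≠ 0 := by
    rintro rfl
    apply hD
    simp
  have hV : V ≠ 0 := by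
    rintro rfl
    apply hD
    simp
  have hp0 : (p : L) ≠ 0 := by exact_mod_cast hp.ne'
  have hpR : (0 : ℝ) < p := by exact_mod_cast hp
  have e1 := prod_abs_eq_one (K := L) hD
  have e2 := prod_abs_eq_one (K := L) hp0
  -- the infinite part of `p`
  have e3 : ∏ w : InfinitePlace L, w (p : L) ^ w.mult = (p : ℝ) ^ finrank ℚ L := by
    have h : ∀ w : InfinitePlace L, w (p : L) = (p : ℝ) := fun w => by simp
    simp_rw [h]
    rw [Finset.prod_pow_eq_pow_sum, InfinitePlace.sum_mult_eq]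
  -- nonnegativity of the maxima
  have nnf : ∀ (W : Fin 2 → L) (v : FinitePlace L), 0 ≤ ⨆ i, v (W i) := fun W v =>
    Real.iSup_nonneg fun i => apply_nonneg v _
  have nni : ∀ (W : Fin 2 → L) (v : InfinitePlace L), 0 ≤ ⨆ i, v (W i) := fun W v =>
    Real.iSup_nonneg fun i => apply_nonneg v _
  -- the finite part
  have f1 : ∏ᶠ w : FinitePlace L, w (U 0 * V 1 - U 1 * V 0) ≤
      (∏ᶠ w : FinitePlace L, w (p : L)) * (∏ᶠ w : FinitePlace L, ⨆ i, w (U i)) *
        (∏ᶠ w : FinitePlace L, ⨆ i, w (V i)) := by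
    have s1 : (fun v : FinitePlace L => v (p : L) * ⨆ i, v (U i)).HasFiniteMulSupport :=
      (FinitePlace.hasFiniteMulSupport hp0).mul (supp U hU)
    have s2 : (fun v : FinitePlace L =>
        (v (p : L) * ⨆ i, v (U i)) * ⨆ i, v (V i)).HasFiniteMulSupport := s1.mul (supp V hV)
    rw [← finprod_mul_distrib (FinitePlace.hasFiniteMulSupport hp0) (supp U hU),
      ← finprod_mul_distrib s1 (supp V hV)]
    exact finprod_le_finprod (FinitePlace.hasFiniteMulSupport hD) (fun v => apply_nonneg v _) s2 hv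
  -- the infinite part
  have f2 : ∏ w : InfinitePlace L, w (U 0 * V 1 - U 1 * V 0) ^ w.mult ≤
      2 ^ finrank ℚ L * (∏ w : InfinitePlace L, (⨆ i, w (U i)) ^ w.mult) *
        (∏ w : InfinitePlace L, (⨆ i, w (V i)) ^ w.mult) := by
    have h2 : (2 : ℝ) ^ finrank ℚ L = ∏ w : InfinitePlace L, (2 : ℝ) ^ w.mult := by
      rw [Finset.prod_pow_eq_pow_sum, InfinitePlace.sum_mult_eq]
    rw [h2, ← Finset.prod_mul_distrib, ← Finset.prod_mul_distrib]
    refine Finset.prod_le_prod (fun w _ => pow_nonneg (apply_nonneg w _) _) fun w _ => ?_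
    rw [← mul_pow, ← mul_pow]
    refine pow_le_pow_left₀ (apply_nonneg w _) ?_ _
    have g : ∀ (W : Fin 2 → L) (i : Fin 2), w (W i) ≤ ⨆ i, w (W i) := fun W i =>
      le_ciSup (f := fun i => w (W i)) (Set.finite_range _).bddAbove i
    calc w (U 0 * V 1 - U 1 * V 0) ≤ w (U 0 * V 1) + w (U 1 * V 0) := by
          have := w.1.sub_le_add (U 0 * V 1) (U 1 * V 0)
          exact this
      _ = w (U 0) * w (V 1) + w (U 1) * w (V 0) := by rw [map_mul, map_mul]
      _ ≤ (⨆ i, w (U i)) * (⨆ i, w (V i)) + (⨆ i, w (U i)) * (⨆ i, w (V i)) :=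
          add_le_add (mul_le_mul (g U 0) (g V 1) (apply_nonneg w _) (nni U w))
            (mul_le_mul (g U 1) (g V 0) (apply_nonneg w _) (nni U w))
      _ = 2 * (⨆ i, w (U i)) * (⨆ i, w (V i)) := by ring
  have hHU : mulHeight U = (∏ w : InfinitePlace L, (⨆ i, w (U i)) ^ w.mult) *
      (∏ᶠ w : FinitePlace L, ⨆ i, w (U i)) := NumberField.mulHeight_eq hU
  have hHV : mulHeight V = (∏ w : InfinitePlace L, (⨆ i, w (V i)) ^ w.mult) *
      (∏ᶠ w : FinitePlace L, ⨆ i, w (V i)) := NumberField.mulHeight_eq hV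
  have hUpos : 0 < mulHeight U := mulHeight_pos U
  have hVpos : 0 < mulHeight V := mulHeight_pos V
  set AU := ∏ w : InfinitePlace L, (⨆ i, w (U i)) ^ w.mult
  set AV := ∏ w : InfinitePlace L, (⨆ i, w (V i)) ^ w.mult
  set FU := ∏ᶠ w : FinitePlace L, ⨆ i, w (U i)
  set FV := ∏ᶠ w : FinitePlace L, ⨆ i, w (V i)
  set FP := ∏ᶠ w : FinitePlace L, w (p : L)
  rw [e3] at e2
  have hAU : 0 ≤ AU := Finset.prod_nonneg fun w _ => pow_nonneg (nni U w) _
  have hAV : 0 ≤ AV := Finset.prod_nonneg fun w _ => pow_nonneg (nni V w) _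
  have hFD : 0 ≤ ∏ᶠ w : FinitePlace L, w (U 0 * V 1 - U 1 * V 0) :=
    finprod_nonneg fun v => apply_nonneg v _
  have main : (1 : ℝ) ≤ (2 ^ finrank ℚ L * AU * AV) * (FP * FU * FV) := by
    rw [← e1]
    exact mul_le_mul f2 f1 hFD (by positivity)
  have main2 : (p : ℝ) ^ finrank ℚ L ≤ 2 ^ finrank ℚ L * (mulHeight U * mulHeight V) := by
    have h := mul_le_mul_of_nonneg_left main (pow_pos hpR (finrank ℚ L)).le
    calc (p : ℝ) ^ finrank ℚ L = (p : ℝ) ^ finrank ℚ L * 1 := (mul_one _).symm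
      _ ≤ (p : ℝ) ^ finrank ℚ L * ((2 ^ finrank ℚ L * AU * AV) * (FP * FU * FV)) := h
      _ = ((p : ℝ) ^ finrank ℚ L * FP) * (2 ^ finrank ℚ L * ((AU * FU) * (AV * FV))) := by ring
      _ = 2 ^ finrank ℚ L * (mulHeight U * mulHeight V) := by rw [e2, one_mul, hHU, hHV]
  have main3 := Real.log_le_log (pow_pos hpR _) main2
  rw [Real.log_pow, Real.log_mul (by positivity) (by positivity), Real.log_pow,
    Real.log_mul hUpos.ne' hVpos.ne'] at main3
  have hvU : absLogHeight (fun i => (U i : Qb)) = logHeight U / finrank ℚ L := val_eq L U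
  have hvV : absLogHeight (fun i => (V i : Qb)) = logHeight V / finrank ℚ L := val_eq L V
  rw [hvU, hvV, logHeight_eq_log_mulHeight, logHeight_eq_log_mulHeight]
  have h5 : Real.log 2 + Real.log (mulHeight U) / finrank ℚ L + Real.log (mulHeight V) / finrank ℚ L =
      (finrank ℚ L * Real.log 2 + (Real.log (mulHeight U) + Real.log (mulHeight V))) / finrank ℚ L := by
    field_simp
    ring
  rw [h5, le_div_iff₀ hn]
  linarith

end Run7.h958.UN
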